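import Pool.Agent.Y501.SY.StmU

/-!
# Project SYU, job SYU-BT: the exterior derivative of a one-form with bounded translates
-/

set_option autoImplicit false

open Set Filter Topology
open scoped Manifold ContDiff

noncomputable section

namespace Pool.Agent.Y903.SY

open Pool.Agent.Y501.SY

/-- the derivatives of a composition with a continuous linear map -/
theorem comp_bound {V W W' : Type} [NormedAddCommGroup V] [NormedSpace ℝ V]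
    [NormedAddCommGroup W] [NormedSpace ℝ W] [NormedAddCommGroup W'] [NormedSpace ℝ W']
    (L : W →L[ℝ] W') : ∃ K : ℝ, 0 ≤ K ∧ ∀ (F : V → W) (n : ℕ) (q : V), ContDiffAt ℝ n F q →
      ‖iteratedFDeriv ℝ n (L ∘ F) q‖ ≤ K * ‖iteratedFDeriv ℝ n F q‖ :=
  ⟨‖L‖, norm_nonneg _, fun _ _ _ h => L.norm_iteratedFDeriv_comp_left h le_rfl⟩

/-- the derivatives of the exterior derivative -/
theorem bound (V : Type) [NormedAddCommGroup V] [NormedSpace ℝ V] : ∃ K : ℝ, 0 ≤ K ∧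
    ∀ (U : Set V), IsOpen U → ∀ (f : V → V [⋀^Fin 1]→L[ℝ] ℝ) (g : V → V [⋀^Fin 2]→L[ℝ] ℝ),
      ContDiffOn ℝ ∞ f U → (∀ p ∈ U, extDeriv f p = g p) → ∀ (n : ℕ), ∀ q ∈ U,
      ‖iteratedFDeriv ℝ n g q‖ ≤ K * ‖iteratedFDeriv ℝ (n + 1) f q‖ := by
  obtain ⟨K, hK, hb⟩ := comp_bound (V := V) (W := V →L[ℝ] V [⋀^Fin 1]→L[ℝ] ℝ)
    (W' := V [⋀^Fin 2]→L[ℝ] ℝ) (ContinuousAlternatingMap.alternatizeUncurryFinCLM (n := 1) ℝ V ℝ)
  refine ⟨K, hK, ?_⟩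
  intro U hU f g hf hfg n q hq
  have e : g =ᶠ[𝓝 q] (ContinuousAlternatingMap.alternatizeUncurryFinCLM (n := 1) ℝ V ℝ) ∘
      (fderiv ℝ f) := by
    filter_upwards [hU.mem_nhds hq] with x hx
    rw [← hfg x hx]
    rfl
  rw [(e.iteratedFDeriv ℝ n).self_of_nhds]
  have h1 : ContDiffAt ℝ ∞ f q := hf.contDiffAt (hU.mem_nhds hq)
  have h2 : ContDiffAt ℝ n (fderiv ℝ f) q := h1.fderiv_right (by exact_mod_cast le_top)
  refine (hb _ n q h2).trans ?_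
  rw [norm_iteratedFDeriv_fderiv]

/-- **SYU-BT** -/
theorem t_BT : S_BT := by
  intro d Z _ _ _ Γ _ _ hact β η _ hη hD hbd U φ hU hφ
  have hsm : ∀ γ : Γ, ContMDiffOn (𝓡 d) (𝓡 d) ∞ (fun p => γ • φ p) U :=
    fun γ => (hact γ).comp_contMDiffOn hφ
  obtain ⟨h1, h2⟩ := hbd U φ hU hφ
  obtain ⟨K, hK, hbound⟩ := bound (E d)
  refine ⟨fun γ => hη U _ hU (hsm γ), ?_⟩
  intro n p hp
  obtain ⟨N, hN, C, hC⟩ := h2 (n + 1) p hp
  refine ⟨N ∩ U, inter_mem hN (hU.mem_nhds hp), K * C, ?_⟩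
  rintro q ⟨hqN, hqU⟩ γ
  exact (hbound U hU _ _ (h1 γ) (hD U _ hU (hsm γ)) n q hqU).trans
    (mul_le_mul_of_nonneg_left (hC q hqN γ) hK)

end Pool.Agent.Y903.SY
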